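import Mathlib

/-!
Project WR (helper712): persistence and permanence of all variable-k weakly reversible systems.
Definitions and exact statements of the parts.  Vectors are functions `ℕ → ℝ` of which only the
entries `i < n` matter (purely combinatorial part), or `Fin n → ℝ` (ODE part).
-/

set_option autoImplicit false

namespace W712.WR

open Finset

/-! ### Combinatorial part -/

/-- pairing over the first `n` coordinates -/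
def pr (n : ℕ) (u v : ℕ → ℝ) : ℝ := ∑ i ∈ range n, u i * v i

/-- `ν` is supported on the indices `< r` -/
def Supp (r : ℕ) (ν : ℕ → ℝ) : Prop := ∀ i, r ≤ i → ν i = 0

/-- `D`: a finite symmetric set of functionals, closed under eliminating the last variable,
containing the consecutive differences; `C` bounds all entries and their inverses. -/
structure Good (n : ℕ) (D : Finset (ℕ → ℝ)) (C : ℝ) : Prop where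
  one_le : 1 ≤ C
  supp : ∀ ν ∈ D, Supp n ν
  neg : ∀ ν ∈ D, (fun i => - ν i) ∈ D
  bd : ∀ ν ∈ D, ∀ i, |ν i| ≤ C
  lb : ∀ ν ∈ D, ∀ i, ν i ≠ 0 → 1 ≤ C * |ν i|
  elim : ∀ r, ∀ ν ∈ D, ∀ μ ∈ D, Supp (r + 1) ν → Supp (r + 1) μ → ν r ≠ 0 → μ r ≠ 0 →
    (fun i => ν i / ν r - μ i / μ r) ∈ D
  diff : ∀ r, r + 1 < n → (fun i => if i = r then (1 : ℝ) else if i = r + 1 then -1 else 0) ∈ D

/-- part CLOS -/
def ClosStm : Prop := ∀ (n : ℕ) (U : Finset (ℕ → ℝ)), (∀ u ∈ U, Supp n u) →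
  ∃ (D : Finset (ℕ → ℝ)) (C : ℝ), Good n D C ∧ U ⊆ D

/-- A node of level `r` (the coordinates `0, …, r` have been treated): slopes `s i`, position
intervals `[a i, b i]` for `i ≤ r`, scale `ρ`, separation factor `A`. -/
structure Inv (D : Finset (ℕ → ℝ)) (r : ℕ) (A : ℝ) (s a b : ℕ → ℝ) (ρ : ℝ) : Prop where
  pos : 0 < ρ
  zero : ∀ ν ∈ D, Supp (r + 1) ν → pr (r + 1) ν s = 0 →
    ∀ τ : ℕ → ℝ, (∀ i ≤ r, a i ≤ τ i ∧ τ i ≤ b i) → |pr (r + 1) ν τ| ≤ ρ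
  one : ∀ ν ∈ D, Supp (r + 1) ν → 0 < pr (r + 1) ν s →
    ∀ τ : ℕ → ℝ, (∀ i ≤ r, a i ≤ τ i ∧ τ i ≤ b i) → A * ρ ≤ pr (r + 1) ν τ
  le : ∀ i ≤ r, a i ≤ b i
  wd : ∀ i ≤ r, b i ≤ a i + ρ

/-- the child of a node obtained by giving the coordinate `r + 1` the slope `σ` and the position
interval `[p, p']` satisfies `Inv` for some scale -/
def Cell (D : Finset (ℕ → ℝ)) (r : ℕ) (A : ℝ) (s a b : ℕ → ℝ) (σ p p' : ℝ) : Prop :=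
  ∃ ρ' : ℝ, Inv D (r + 1) A (Function.update s (r + 1) σ) (Function.update a (r + 1) p)
    (Function.update b (r + 1) p') ρ'

/-- part CHAIN: the positions from `L` to `b r` are covered by finitely many cells with
increasing slopes, the last slope being `s r`. -/
def ChainStm : Prop := ∀ (n : ℕ) (D : Finset (ℕ → ℝ)) (C : ℝ), Good n D C →
  ∀ r, r + 1 < n → ∀ A' : ℝ, 0 < A' → ∃ A : ℝ, 0 < A ∧
    ∀ (L : ℝ) (s a b : ℕ → ℝ) (ρ : ℝ), Inv D r A s a b ρ → (∀ i ≤ r, L ≤ a i) →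
      ∀ P : ℝ → ℝ → ℝ → Prop,
        (∀ σ p, L ≤ p → σ ≤ s r → Cell D r A' s a b σ L p → ∃ q, q < L ∧ P q p σ) →
        (∀ q p σ p' σ', P q p σ → σ < σ' → σ' ≤ s r → L ≤ p → p ≤ p' →
          Cell D r A' s a b σ' p p' → P p p' σ') →
        ∃ q, q < a r ∧ P q (b r) (s r)

/-- positive and antitone on the indices `< n` -/
def Srt (n : ℕ) (x : ℕ → ℝ) : Prop := (∀ i, i < n → 0 < x i) ∧ ∀ i j, i ≤ j → j < n → x j ≤ x i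

/-- A family of completions of a node of level `r`; the pairs are (slope vector, height as a
function of `R`). -/
structure Fam (n : ℕ) (U : Finset (ℕ → ℝ)) (L : ℝ) (r : ℕ) (s a b : ℕ → ℝ)
    (T : Finset ((ℕ → ℝ) × (ℝ → ℝ))) : Prop where
  pre : ∀ p ∈ T, ∀ i ≤ r, p.1 i = s i
  anti : ∀ p ∈ T, ∀ i j, r ≤ i → i ≤ j → j < n → p.1 j ≤ p.1 i
  nonneg : ∀ p ∈ T, ∀ R, 0 ≤ R → 0 ≤ p.2 R
  smooth : ∀ p ∈ T, ContDiff ℝ 1 p.2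
  top : ∃ p ∈ T, (∀ i, r ≤ i → i < n → p.1 i = s r) ∧
    ∃ C η : ℝ, 0 < η ∧ ∀ R, 0 ≤ R → p.2 R ≤ C * Real.exp (R * (a r - η))
  main : ∀ C δ : ℝ, 1 ≤ C → ∃ R0 : ℝ, ∀ R, R0 ≤ R → ∀ x : ℕ → ℝ, Srt n x →
    (∀ i ≤ r, Real.exp (R * a i) / C ≤ x i ∧ x i ≤ C * Real.exp (R * b i)) →
    Real.exp (R * L) / C ≤ x (n - 1) →
    ∀ p ∈ T, (∀ q ∈ T, pr n q.1 x - q.2 R ≤ pr n p.1 x - p.2 R) →
      ∀ u ∈ U, 0 < pr n p.1 u → δ < ∑ i ∈ range n, u i * Real.log (x i)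

/-- part CLAIM -/
def ClaimStm : Prop := ∀ (n : ℕ) (U D : Finset (ℕ → ℝ)) (C : ℝ), Good n D C → U ⊆ D →
  ∀ r, r < n → ∃ A : ℝ, 0 < A ∧ ∀ (L : ℝ) (s a b : ℕ → ℝ) (ρ : ℝ), Inv D r A s a b ρ →
    (∀ i ≤ r, L ≤ a i) → ∃ T, Fam n U L r s a b T

/-- part ROOT: the family for sorted vectors -/
def RootStm : Prop := ∀ (n : ℕ) (U : Finset (ℕ → ℝ)), 0 < n → (∀ u ∈ U, Supp n u) →
  ∃ (T : Finset ((ℕ → ℝ) × (ℝ → ℝ))) (c M : ℝ → ℝ),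
    Continuous c ∧ Continuous M ∧ (∀ R, 0 < c R) ∧ (∀ p ∈ T, ContDiff ℝ 1 p.2) ∧
    (∀ p ∈ T, ∀ i j, i ≤ j → j < n → p.1 j ≤ p.1 i) ∧
    (∀ m K : ℝ, 0 < m → ∃ R0 : ℝ, ∀ R, R0 ≤ R → ∀ x : ℕ → ℝ, (∀ i < n, m ≤ x i ∧ x i ≤ K) →
      ∀ p ∈ T, pr n p.1 x < p.2 R) ∧
    (∃ R0 : ℝ, ∀ R, R0 ≤ R → ∀ x : ℕ → ℝ, (∀ i j, i ≤ j → j < n → x j ≤ x i) →
      (∀ p ∈ T, pr n p.1 x - p.2 R ≤ c R) → ∀ j < n, c R ≤ x j ∧ x j ≤ M R) ∧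
    (∀ δ : ℝ, ∃ R0 : ℝ, ∀ R, R0 ≤ R → ∀ x : ℕ → ℝ, (∀ i j, i ≤ j → j < n → x j ≤ x i) →
      ∀ p ∈ T, (∀ q ∈ T, pr n q.1 x - q.2 R ≤ pr n p.1 x - p.2 R) →
      0 ≤ pr n p.1 x - p.2 R → pr n p.1 x - p.2 R ≤ c R →
      ∀ u ∈ U, 0 < pr n p.1 u → δ < ∑ i ∈ range n, u i * Real.log (x i))

/-- part PERM: the main structural statement.  `T` is a finite set of pairs
(direction `w`, height `h` as a function of `R`); the body is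
`K_R = {x : ∀ (w, h) ∈ T, w ⬝ x ≤ h R}`. -/
def MainStm : Prop := ∀ (n : ℕ) (U : Finset (Fin n → ℝ)),
  ∃ (T : Finset ((Fin n → ℝ) × (ℝ → ℝ))) (c M : ℝ → ℝ),
    Continuous c ∧ Continuous M ∧ (∀ R, 0 < c R) ∧ (∀ p ∈ T, ContDiff ℝ 1 p.2) ∧
    (∀ x : Fin n → ℝ, (∀ j, 0 < x j) → ∃ R0 : ℝ, ∀ R, R0 ≤ R →
      ∀ p ∈ T, ∑ j, p.1 j * x j < p.2 R) ∧
    (∃ R0 : ℝ, ∀ R, R0 ≤ R → ∀ x : Fin n → ℝ,
      (∀ p ∈ T, ∑ j, p.1 j * x j - p.2 R ≤ c R) → ∀ j, c R ≤ x j ∧ x j ≤ M R) ∧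
    (∀ δ : ℝ, ∃ R0 : ℝ, ∀ R, R0 ≤ R → ∀ x : Fin n → ℝ, ∀ p ∈ T,
      (∀ q ∈ T, ∑ j, q.1 j * x j - q.2 R ≤ ∑ j, p.1 j * x j - p.2 R) →
      0 ≤ ∑ j, p.1 j * x j - p.2 R → ∑ j, p.1 j * x j - p.2 R ≤ c R →
      ∀ u ∈ U, 0 < ∑ j, p.1 j * u j → δ < ∑ j, u j * Real.log (x j))

/-! ### ODE part -/

/-- the mass-action vector field (edges `e = (source, target)`) -/
noncomputable def fld {n : ℕ} (E : Finset ((Fin n → ℝ) × (Fin n → ℝ)))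
    (k : (Fin n → ℝ) × (Fin n → ℝ) → ℝ) (x : Fin n → ℝ) : Fin n → ℝ :=
  ∑ e ∈ E, (k e * ∏ i, x i ^ (e.1 i)) • (e.2 - e.1)

/-- part FIELD: the field points into the bodies `K_R` -/
def FieldStm : Prop := ∀ (n : ℕ) (E : Finset ((Fin n → ℝ) × (Fin n → ℝ))),
  (∀ e ∈ E, Relation.ReflTransGen (fun u v => (u, v) ∈ E) e.2 e.1) → ∀ ε : ℝ, 0 < ε →
  ∃ (T : Finset ((Fin n → ℝ) × (ℝ → ℝ))) (c M : ℝ → ℝ) (R0 : ℝ),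
    Continuous c ∧ Continuous M ∧ (∀ R, 0 < c R) ∧ (∀ p ∈ T, ContDiff ℝ 1 p.2) ∧
    (∀ x : Fin n → ℝ, (∀ j, 0 < x j) → ∃ R1 : ℝ, ∀ R, R1 ≤ R →
      ∀ p ∈ T, ∑ j, p.1 j * x j < p.2 R) ∧
    (∀ R, R0 ≤ R → ∀ x : Fin n → ℝ,
      (∀ p ∈ T, ∑ j, p.1 j * x j - p.2 R ≤ c R) → ∀ j, c R ≤ x j ∧ x j ≤ M R) ∧
    (∀ R, R0 ≤ R → ∀ x : Fin n → ℝ, ∀ k : (Fin n → ℝ) × (Fin n → ℝ) → ℝ,
      (∀ e ∈ E, ε ≤ k e ∧ k e ≤ 1 / ε) → ∀ p ∈ T,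
      (∀ q ∈ T, ∑ j, q.1 j * x j - q.2 R ≤ ∑ j, p.1 j * x j - p.2 R) →
      0 ≤ ∑ j, p.1 j * x j - p.2 R → ∑ j, p.1 j * x j - p.2 R ≤ c R →
      ∑ j, p.1 j * fld E k x j ≤ 0) ∧
    (∀ R1 R2, R0 ≤ R1 → ∃ κ : ℝ, 0 < κ ∧ ∀ R, R1 ≤ R → R ≤ R2 → ∀ x : Fin n → ℝ,
      ∀ k : (Fin n → ℝ) × (Fin n → ℝ) → ℝ, (∀ e ∈ E, ε ≤ k e ∧ k e ≤ 1 / ε) → ∀ p ∈ T,
      (∃ e ∈ E, ∑ j, p.1 j * (e.2 j - e.1 j) ≠ 0) →
      (∀ q ∈ T, ∑ j, q.1 j * x j - q.2 R ≤ ∑ j, p.1 j * x j - p.2 R) →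
      0 ≤ ∑ j, p.1 j * x j - p.2 R → ∑ j, p.1 j * x j - p.2 R ≤ c R →
      ∑ j, p.1 j * fld E k x j ≤ -κ)

/-- part NOEXIT: a finite maximum of differentiable functions does not leave `(-∞, 0]` -/
def NoExitStm : Prop := ∀ (ι : Type) [Fintype ι] (f f' : ι → ℝ → ℝ) (a b c : ℝ), a ≤ b → 0 < c →
  (∀ i, ContinuousOn (f i) (Set.Icc a b)) →
  (∀ i, ∀ t ∈ Set.Ico a b, HasDerivWithinAt (f i) (f' i t) (Set.Ici t) t) →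
  (∀ i, f i a ≤ 0) →
  (∀ t ∈ Set.Ico a b, ∀ i, (∀ j, f j t ≤ f i t) → 0 ≤ f i t → f i t ≤ c → f' i t ≤ 0) →
  ∀ t ∈ Set.Icc a b, ∀ i, f i t ≤ 0

/-- part NOEXIT-AC: the same for absolutely continuous functions -/
def NoExitACStm : Prop := ∀ (ι : Type) [Fintype ι] (f g : ι → ℝ → ℝ) (a b c : ℝ), a ≤ b → 0 < c →
  (∀ i, AbsolutelyContinuousOnInterval (f i) a b) →
  (∀ i, ∀ᵐ t, t ∈ Set.Icc a b → HasDerivAt (f i) (g i t) t) →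
  (∀ i, f i a ≤ 0) →
  (∀ᵐ t, t ∈ Set.Icc a b → ∀ i, (∀ j, f j t ≤ f i t) → 0 ≤ f i t → f i t ≤ c → g i t ≤ 0) →
  ∀ t ∈ Set.Icc a b, ∀ i, f i t ≤ 0

/-- part CARA: global existence for bounded Lipschitz fields measurable in time -/
def CaraStm : Prop := ∀ (n : ℕ) (G : ℝ → (Fin n → ℝ) → (Fin n → ℝ)) (L B : NNReal),
  (∀ x, Measurable (fun t => G t x)) → (∀ t, LipschitzWith L (G t)) → (∀ t x, ‖G t x‖ ≤ B) →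
  ∀ x₀ : Fin n → ℝ, ∃ x : ℝ → Fin n → ℝ, x 0 = x₀ ∧ LipschitzOnWith B x (Set.Ici 0) ∧
    ∀ᵐ t, 0 < t → HasDerivAt x (G t (x t)) t

/-- part UNIQ -/
def UniqStm : Prop := ∀ (n : ℕ) (G : ℝ → (Fin n → ℝ) → (Fin n → ℝ)) (L : NNReal),
  (∀ t, LipschitzWith L (G t)) → ∀ (x y : ℝ → Fin n → ℝ) (b : ℝ), 0 ≤ b →
  AbsolutelyContinuousOnInterval x 0 b → AbsolutelyContinuousOnInterval y 0 b →
  (∀ᵐ t, t ∈ Set.Icc 0 b → HasDerivAt x (G t (x t)) t) →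
  (∀ᵐ t, t ∈ Set.Icc 0 b → HasDerivAt y (G t (y t)) t) →
  x 0 = y 0 → ∀ t ∈ Set.Icc 0 b, x t = y t

/-! ### Final statements -/

/-- frozen statement S03833 (persistence, MP_0fd242_an) -/
def S03833Stm : Prop :=
    ∀ (n : ℕ) (E : Finset ((Fin n → ℝ) × (Fin n → ℝ)))
      (k : (Fin n → ℝ) × (Fin n → ℝ) → ℝ),
      (∀ e ∈ E, Relation.TransGen (fun a b => (a, b) ∈ E) e.2 e.1) →
      (∀ e ∈ E, 0 < k e) →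
      ∀ (T : EReal) (x : ℝ → (Fin n → ℝ)), 0 < T →
        (∀ t : ℝ, 0 ≤ t → (t : EReal) < T → ∀ i, 0 < x t i) →
        (∀ t : ℝ, 0 ≤ t → (t : EReal) < T →
          HasDerivWithinAt x
            (∑ e ∈ E, (k e * ∏ j, x t j ^ (e.1 j)) • (e.2 - e.1))
            (Set.Ici 0) t) →
        ∀ i, ∃ ε : ℝ, 0 < ε ∧ ∃ s : ℝ, (s : EReal) < T ∧
          ∀ t : ℝ, 0 ≤ t → s < t → (t : EReal) < T → ε ≤ x t i

/-- frozen statement S03983 (persistence with variable rates, MP_1be7de_an) -/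
def S03983Stm : Prop :=
    ∀ (n : ℕ) (E : Finset ((Fin n → ℝ) × (Fin n → ℝ))),
      (∀ e ∈ E, e.1 ≠ e.2) →
      (∀ e ∈ E, Relation.ReflTransGen (fun u v => (u, v) ∈ E) e.2 e.1) →
      ∀ (ε : ℝ), 0 < ε →
      ∀ (k : (Fin n → ℝ) × (Fin n → ℝ) → ℝ → ℝ),
        (∀ e ∈ E, ∀ t : ℝ, ε ≤ k e t ∧ k e t ≤ 1 / ε) →
      ∀ (I : Set ℝ), I.OrdConnected → (0 : ℝ) ∈ I →
      ∀ (x : ℝ → Fin n → ℝ),
        (∀ t ∈ I, ∀ i : Fin n, 0 < x t i) →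
        (∀ t ∈ I, HasDerivWithinAt x
            (∑ e ∈ E, (k e t * ∏ i : Fin n, (x t i) ^ (e.1 i)) • (e.2 - e.1)) I t) →
        ∃ ε₀ : ℝ, 0 < ε₀ ∧ ∀ t ∈ I, 0 ≤ t → ∀ i : Fin n, ε₀ < x t i

/-- `x` is an absolutely continuous positive solution on `J` of the variable-`k` system -/
structure IsSol {n : ℕ} (E : Finset ((Fin n → ℝ) × (Fin n → ℝ)))
    (k : (Fin n → ℝ) × (Fin n → ℝ) → ℝ → ℝ) (x : ℝ → Fin n → ℝ) (J : Set ℝ) : Prop where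
  pos : ∀ t ∈ J, ∀ i, 0 < x t i
  ac : ∀ a ∈ J, ∀ b ∈ J, a ≤ b → AbsolutelyContinuousOnInterval x a b
  ode : ∀ᵐ t, t ∈ J → HasDerivAt x (fld E (fun e => k e t) (x t)) t

/-- the stoichiometric compatibility class of `x₀` -/
def cls {n : ℕ} (E : Finset ((Fin n → ℝ) × (Fin n → ℝ))) (x₀ : Fin n → ℝ) : Set (Fin n → ℝ) :=
  {z | (∀ i, 0 < z i) ∧ z - x₀ ∈ Submodule.span ℝ {v | ∃ e ∈ E, v = e.2 - e.1}}

/-- permanence with variable rates (MP_5f8094_an) -/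
def PermStm : Prop := ∀ (n : ℕ) (E : Finset ((Fin n → ℝ) × (Fin n → ℝ))),
  (∀ e ∈ E, Relation.ReflTransGen (fun u v => (u, v) ∈ E) e.2 e.1) → ∀ ε : ℝ, 0 < ε →
  ∀ x₀ : Fin n → ℝ, (∀ i, 0 < x₀ i) →
  ∃ K : Set (Fin n → ℝ), IsCompact K ∧ K ⊆ cls E x₀ ∧
    ∀ (k : (Fin n → ℝ) × (Fin n → ℝ) → ℝ → ℝ), (∀ e ∈ E, Measurable (k e)) →
      (∀ e ∈ E, ∀ t : ℝ, ε ≤ k e t ∧ k e t ≤ 1 / ε) →
      (∀ z ∈ cls E x₀, ∃ y : ℝ → Fin n → ℝ, y 0 = z ∧ IsSol E k y (Set.Ici 0)) ∧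
      (∀ (J : Set ℝ) (x : ℝ → Fin n → ℝ), J.OrdConnected → (0 : ℝ) ∈ J → J ⊆ Set.Ici 0 →
        IsSol E k x J → x 0 ∈ cls E x₀ →
        ∃ y : ℝ → Fin n → ℝ, IsSol E k y (Set.Ici 0) ∧ (∀ t ∈ J, y t = x t) ∧
          ∃ t₀ : ℝ, 0 < t₀ ∧ ∀ t, t₀ < t → y t ∈ K)

/-- permanence with constant rates (MP_210c79_an), classical solutions: for every class one
compact set `M` of the class; every solution starting in the class is unique, global, stays in the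
class and is eventually in `M`. -/
def Perm210Stm : Prop := ∀ (n : ℕ) (E : Finset ((Fin n → ℝ) × (Fin n → ℝ))),
  (∀ e ∈ E, Relation.ReflTransGen (fun u v => (u, v) ∈ E) e.2 e.1) →
  ∀ k : (Fin n → ℝ) × (Fin n → ℝ) → ℝ, (∀ e ∈ E, 0 < k e) →
  ∀ x₀ : Fin n → ℝ, (∀ i, 0 < x₀ i) →
  ∃ M : Set (Fin n → ℝ), IsCompact M ∧ M ⊆ cls E x₀ ∧
    ∀ z ∈ cls E x₀, ∃ y : ℝ → Fin n → ℝ, y 0 = z ∧
      (∀ t, 0 ≤ t → y t ∈ cls E x₀ ∧ HasDerivWithinAt y (fld E k (y t)) (Set.Ici 0) t) ∧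
      (∀ (J : Set ℝ) (x : ℝ → Fin n → ℝ), J.OrdConnected → (0 : ℝ) ∈ J → J ⊆ Set.Ici 0 →
        x 0 = z → (∀ t ∈ J, (∀ i, 0 < x t i) ∧ HasDerivWithinAt x (fld E k (x t)) J t) →
        ∀ t ∈ J, x t = y t) ∧
      ∃ t₀ : ℝ, ∀ t, t₀ ≤ t → y t ∈ M

end W712.WR
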