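import Pool.Agent.W712.WR.Stm

/-!
Project WR: uniform two-sided bounds for classical solutions.
-/

set_option autoImplicit false

namespace W712.WR

open Set Finset

theorem uniform_cl (hF : FieldStm) (hN : NoExitStm) (n : ℕ)
    (E : Finset ((Fin n → ℝ) × (Fin n → ℝ)))
    (hE : ∀ e ∈ E, Relation.ReflTransGen (fun u v => (u, v) ∈ E) e.2 e.1)
    (ε : ℝ) (hε : 0 < ε) (m K : ℝ) (hm : 0 < m) :
    ∃ m' M' : ℝ, 0 < m' ∧ ∀ (k : (Fin n → ℝ) × (Fin n → ℝ) → ℝ),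
      (∀ e ∈ E, ε ≤ k e ∧ k e ≤ 1 / ε) →
      ∀ (x : ℝ → Fin n → ℝ) (b : ℝ), 0 ≤ b →
        (∀ t ∈ Set.Icc 0 b, HasDerivWithinAt x (fld E k (x t)) (Set.Ici 0) t) →
        (∀ i, m ≤ x 0 i ∧ x 0 i ≤ K) → ∀ t ∈ Set.Icc 0 b, ∀ i, m' ≤ x t i ∧ x t i ≤ M' := by
  classical
  obtain ⟨T, c, M, R0, -, -, hc, -, hexh, hbd, hfld, -⟩ := hF n E hE ε hε
  by_cases hmK : m ≤ K
  swap
  · refine ⟨1, 1, one_pos, ?_⟩
    intro k _ x b _ _ hx t _ i
    exact absurd ((hx i).1.trans (hx i).2) hmK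
  let vert : Finset (Fin n) → Fin n → ℝ := fun A j => if j ∈ A then K else m
  have hvert : ∀ A j, 0 < vert A j := by
    intro A j
    simp only [vert]
    split_ifs <;> linarith
  choose R1 hR1 using fun A : Finset (Fin n) => hexh (vert A) (hvert A)
  set R := max R0 (Finset.univ.sup' ⟨∅, Finset.mem_univ _⟩ R1) with hRdef
  have hR0R : R0 ≤ R := le_max_left _ _
  have hR1R : ∀ A, R1 A ≤ R := fun A =>
    (Finset.le_sup' R1 (Finset.mem_univ A)).trans (le_max_right _ _)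
  have hstart : ∀ z : Fin n → ℝ, (∀ i, m ≤ z i ∧ z i ≤ K) → ∀ p ∈ T,
      ∑ j, p.1 j * z j < p.2 R := by
    intro z hz p hp
    refine lt_of_le_of_lt ?_ (hR1 (Finset.univ.filter fun j => 0 ≤ p.1 j) R (hR1R _) p hp)
    apply Finset.sum_le_sum
    intro j _
    simp only [vert, Finset.mem_filter, Finset.mem_univ, true_and]
    split_ifs with h
    · exact mul_le_mul_of_nonneg_left (hz j).2 h
    · exact mul_le_mul_of_nonpos_left (hz j).1 (not_le.1 h).le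
  refine ⟨c R, M R, hc R, ?_⟩
  intro k hk x b hb hder hx0 t ht i
  have key := hN {p // p ∈ T} (fun p t => ∑ j, p.1.1 j * x t j - p.1.2 R)
    (fun p t => ∑ j, p.1.1 j * fld E k (x t) j) 0 b (c R) hb (hc R)
    (by
      intro p
      apply ContinuousOn.sub _ continuousOn_const
      apply continuousOn_finsetSum
      intro j _
      refine continuousOn_const.mul ((continuous_apply j).comp_continuousOn ?_)
      intro s hs
      exact ((hder s hs).continuousWithinAt).mono Set.Icc_subset_Ici_self)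
    (by
      intro p s hs
      have h1 := (hder s ⟨hs.1, hs.2.le⟩).mono (Set.Ici_subset_Ici.2 hs.1)
      have h2 : ∀ j, HasDerivWithinAt (fun t => x t j)
          (fld E k (x s) j) (Set.Ici s) s := hasDerivWithinAt_pi.1 h1
      have h3 : HasDerivWithinAt (fun t => ∑ j, p.1.1 j * x t j)
          (∑ j, p.1.1 j * fld E k (x s) j) (Set.Ici s) s := by
        apply HasDerivWithinAt.fun_sum
        intro j _
        exact (h2 j).const_mul _
      exact h3.sub_const _)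
    (by
      intro p
      have := hstart (x 0) hx0 p.1 p.2
      linarith)
    (by
      intro s hs p hp h0 hcR
      apply hfld R hR0R (x s) k hk p.1 p.2 _ h0 hcR
      intro q hq
      exact hp ⟨q, hq⟩)
    t ht
  exact hbd R hR0R (x t) (fun p hp => (key ⟨p, hp⟩).trans (hc R).le) i

/-- all forward trajectories starting in a box stay in a box, uniformly in the rates -/
def BddStm : Prop := ∀ (n : ℕ) (E : Finset ((Fin n → ℝ) × (Fin n → ℝ))),
  (∀ e ∈ E, Relation.ReflTransGen (fun u v => (u, v) ∈ E) e.2 e.1) →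
  ∀ ε : ℝ, 0 < ε → ∀ m K : ℝ, 0 < m → ∃ m' M' : ℝ, 0 < m' ∧
    ∀ k : (Fin n → ℝ) × (Fin n → ℝ) → ℝ, (∀ e ∈ E, ε ≤ k e ∧ k e ≤ 1 / ε) →
    ∀ z : Fin n → ℝ, (∀ i, m ≤ z i ∧ z i ≤ K) → ∃ y : ℝ → Fin n → ℝ, y 0 = z ∧
      (∀ t, 0 ≤ t → HasDerivWithinAt y (fld E k (y t)) (Set.Ici 0) t) ∧
      (∀ t, 0 ≤ t → ∀ i, m' ≤ y t i ∧ y t i ≤ M') ∧
      ∀ (J : Set ℝ) (x : ℝ → Fin n → ℝ), J.OrdConnected → (0 : ℝ) ∈ J → J ⊆ Set.Ici 0 →
        x 0 = z → (∀ t ∈ J, (∀ i, 0 < x t i) ∧ HasDerivWithinAt x (fld E k (x t)) J t) →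
        ∀ t ∈ J, x t = y t

theorem bdd (hF : FieldStm) (hN : NoExitStm) (hP : Perm210Stm) : BddStm := by
  intro n E hE ε hε m K hm
  obtain ⟨m', M', hm', H⟩ := uniform_cl hF hN n E hE ε hε m K hm
  refine ⟨m', M', hm', ?_⟩
  intro k hk z hz
  have hzpos : ∀ i, 0 < z i := fun i => hm.trans_le (hz i).1
  obtain ⟨Mc, -, -, hM⟩ := hP n E hE k (fun e he => hε.trans_le (hk e he).1) z hzpos
  have hzc : z ∈ cls E z := ⟨hzpos, by simp⟩
  obtain ⟨y, hy0, hy, huni, -⟩ := hM z hzc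
  refine ⟨y, hy0, fun t ht => (hy t ht).2, ?_, huni⟩
  intro t ht
  exact H k hk y t ht (fun s hs => (hy s hs.1).2) (by rw [hy0]; exact hz) t ⟨ht, le_rfl⟩

end W712.WR
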