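import Pool.Agent.W712.WR.Stm

/-!
Project WR: uniform bounds for absolutely continuous solutions, gluing of solutions.
-/

set_option autoImplicit false

namespace W712.WR

open Set Finset AbsolutelyContinuousOnInterval

/-- absolutely continuous function composed with a monotone 1-Lipschitz retraction -/
theorem ac_comp {X : Type*} [PseudoMetricSpace X] {f : ℝ → X} {φ : ℝ → ℝ} {a b c d : ℝ}
    (h1 : ∀ s t, uIoc (φ s) (φ t) ⊆ uIoc s t) (h2 : ∀ s ∈ uIcc a b, φ s ∈ uIcc c d)
    (h3 : ∀ s t, dist (φ s) (φ t) ≤ dist s t) (hf : AbsolutelyContinuousOnInterval f c d) :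
    AbsolutelyContinuousOnInterval (fun t => f (φ t)) a b := by
  rw [absolutelyContinuousOnInterval_iff] at hf ⊢
  intro ε hε
  obtain ⟨δ, hδ, H⟩ := hf ε hε
  refine ⟨δ, hδ, fun E hE hs => ?_⟩
  have := H (E.1, fun i => (φ (E.2 i).1, φ (E.2 i).2)) ?_ ?_
  · exact this
  · refine ⟨fun i hi => ⟨h2 _ (hE.1 i hi).1, h2 _ (hE.1 i hi).2⟩, ?_⟩
    intro i hi j hj hij
    exact (hE.2 hi hj hij).mono (h1 _ _) (h1 _ _)
  · exact lt_of_le_of_lt (Finset.sum_le_sum fun i _ => h3 _ _) hs

theorem ac_coord' {n : ℕ} {z : ℝ → Fin n → ℝ} {a b : ℝ}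
    (h : AbsolutelyContinuousOnInterval z a b) (j : Fin n) :
    AbsolutelyContinuousOnInterval (fun t => z t j) a b := by
  rw [absolutelyContinuousOnInterval_iff] at h ⊢
  intro ε hε
  obtain ⟨δ, hδ, H⟩ := h ε hε
  refine ⟨δ, hδ, fun E hE hs => lt_of_le_of_lt (Finset.sum_le_sum fun i _ => ?_) (H E hE hs)⟩
  exact dist_le_pi_dist (z (E.2 i).1) (z (E.2 i).2) j

theorem ac_congr {X : Type*} [PseudoMetricSpace X] {f g : ℝ → X} {a b : ℝ}
    (hfg : ∀ t ∈ uIcc a b, f t = g t) (hf : AbsolutelyContinuousOnInterval f a b) :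
    AbsolutelyContinuousOnInterval g a b := by
  rw [absolutelyContinuousOnInterval_iff] at hf ⊢
  intro ε hε
  obtain ⟨δ, hδ, H⟩ := hf ε hε
  refine ⟨δ, hδ, fun E hE hs => ?_⟩
  refine lt_of_le_of_lt (le_of_eq (Finset.sum_congr rfl fun i hi => ?_)) (H E hE hs)
  rw [hfg _ (hE.1 i hi).1, hfg _ (hE.1 i hi).2]

/-- gluing two absolutely continuous functions at `0` -/
theorem ac_glue {n : ℕ} {f g : ℝ → Fin n → ℝ} {a b : ℝ} (ha : a ≤ 0) (hb : 0 ≤ b)
    (h0 : f 0 = g 0) (hf : AbsolutelyContinuousOnInterval f a 0)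
    (hg : AbsolutelyContinuousOnInterval g 0 b) :
    AbsolutelyContinuousOnInterval (fun t => if t < 0 then f t else g t) a b := by
  have h1 : AbsolutelyContinuousOnInterval (fun t => f (min t 0)) a b := by
    refine ac_comp (φ := fun t => min t 0) ?_ ?_ ?_ hf
    · intro s t u hu
      simp only [uIoc, Set.mem_Ioc] at hu ⊢
      grind
    · intro s hs
      simp only [Set.uIcc, Set.mem_Icc] at hs ⊢
      grind
    · intro s t
      simp only [Real.dist_eq]
      grind
  have h2 : AbsolutelyContinuousOnInterval (fun t => g (max t 0)) a b := by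
    refine ac_comp (φ := fun t => max t 0) ?_ ?_ ?_ hg
    · intro s t u hu
      simp only [uIoc, Set.mem_Ioc] at hu ⊢
      grind
    · intro s hs
      simp only [Set.uIcc, Set.mem_Icc] at hs ⊢
      grind
    · intro s t
      simp only [Real.dist_eq]
      grind
  have h3 : AbsolutelyContinuousOnInterval (fun _ : ℝ => g 0) a b := by
    apply LipschitzOnWith.absolutelyContinuousOnInterval (K := 0)
    exact (LipschitzWith.const (g 0)).lipschitzOnWith
  refine ac_congr ?_ ((h1.fun_add h2).fun_sub h3)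
  intro t _
  by_cases ht : t < 0
  · simp only [ht, if_true]
    rw [min_eq_left ht.le, max_eq_right ht.le]; simp
  · have ht' : 0 ≤ t := not_lt.1 ht
    simp only [ht, if_false]
    rw [min_eq_right ht', max_eq_left ht', h0]; simp

/-- uniform two-sided bounds for all absolutely continuous solutions -/
theorem uniform_ac (hF : FieldStm) (hN : NoExitACStm) (n : ℕ)
    (E : Finset ((Fin n → ℝ) × (Fin n → ℝ)))
    (hE : ∀ e ∈ E, Relation.ReflTransGen (fun u v => (u, v) ∈ E) e.2 e.1)
    (ε : ℝ) (hε : 0 < ε) (m K : ℝ) (hm : 0 < m) :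
    ∃ m' M' : ℝ, 0 < m' ∧ ∀ (k : (Fin n → ℝ) × (Fin n → ℝ) → ℝ → ℝ),
      (∀ e ∈ E, ∀ t : ℝ, ε ≤ k e t ∧ k e t ≤ 1 / ε) →
      ∀ (J : Set ℝ) (x : ℝ → Fin n → ℝ), J.OrdConnected → (0 : ℝ) ∈ J → IsSol E k x J →
        (∀ i, m ≤ x 0 i ∧ x 0 i ≤ K) → ∀ t ∈ J, 0 ≤ t → ∀ i, m' ≤ x t i ∧ x t i ≤ M' := by
  classical
  obtain ⟨T, c, M, R0, -, -, hc, -, hexh, hbd, hfld, -⟩ := hF n E hE ε hε
  by_cases hmK : m ≤ K
  swap
  · refine ⟨1, 1, one_pos, ?_⟩
    intro k _ J x _ _ _ hx t _ _ i
    exact absurd ((hx i).1.trans (hx i).2) hmK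
  -- vertices of the box
  let vert : Finset (Fin n) → Fin n → ℝ := fun A j => if j ∈ A then K else m
  have hvert : ∀ A j, 0 < vert A j := by
    intro A j
    simp only [vert]
    split_ifs <;> linarith
  choose R1 hR1 using fun A : Finset (Fin n) => hexh (vert A) (hvert A)
  set R := max R0 (Finset.univ.sup' ⟨∅, Finset.mem_univ _⟩ R1) with hRdef
  have hR0R : R0 ≤ R := le_max_left _ _
  have hR1R : ∀ A, R1 A ≤ R := fun A =>
    (Finset.le_sup' R1 (Finset.mem_univ A)).trans (le_max_right _ _)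
  have hstart : ∀ z : Fin n → ℝ, (∀ i, m ≤ z i ∧ z i ≤ K) → ∀ p ∈ T,
      ∑ j, p.1 j * z j < p.2 R := by
    intro z hz p hp
    refine lt_of_le_of_lt ?_ (hR1 (Finset.univ.filter fun j => 0 ≤ p.1 j) R (hR1R _) p hp)
    apply Finset.sum_le_sum
    intro j _
    simp only [vert, Finset.mem_filter, Finset.mem_univ, true_and]
    split_ifs with h
    · exact mul_le_mul_of_nonneg_left (hz j).2 h
    · exact mul_le_mul_of_nonpos_left (hz j).1 (not_le.1 h).le
  refine ⟨c R, M R, hc R, ?_⟩
  intro k hk J x hJ h0 hsol hx0 t ht ht0 i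
  have hsub : Set.Icc 0 t ⊆ J := hJ.out h0 ht
  have key := hN {p // p ∈ T} (fun p t => ∑ j, p.1.1 j * x t j - p.1.2 R)
    (fun p t => ∑ j, p.1.1 j * fld E (fun e => k e t) (x t) j) 0 t (c R) ht0 (hc R)
    (by
      intro p
      have hac := hsol.ac 0 h0 t ht ht0
      have h1 : ∀ j, AbsolutelyContinuousOnInterval (fun s => p.1.1 j * x s j) 0 t :=
        fun j => (ac_coord' hac j).const_mul _
      have h2 : AbsolutelyContinuousOnInterval (fun s => ∑ j, p.1.1 j * x s j) 0 t := by
        have : ∀ A : Finset (Fin n), AbsolutelyContinuousOnInterval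
            (fun s => ∑ j ∈ A, p.1.1 j * x s j) 0 t := by
          intro A
          induction A using Finset.induction_on with
          | empty =>
            simp only [Finset.sum_empty]
            apply LipschitzOnWith.absolutelyContinuousOnInterval (K := 0)
            exact (LipschitzWith.const (0 : ℝ)).lipschitzOnWith
          | insert j A hj ih =>
            simp only [Finset.sum_insert hj]
            exact (h1 j).fun_add ih
        exact this _
      refine h2.fun_sub ?_
      apply LipschitzOnWith.absolutelyContinuousOnInterval (K := 0)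
      exact (LipschitzWith.const (p.1.2 R)).lipschitzOnWith)
    (by
      intro p
      filter_upwards [hsol.ode] with s hs hst
      have h2 := hasDerivAt_pi.1 (hs (hsub hst))
      have h3 : HasDerivAt (fun t => ∑ j, p.1.1 j * x t j)
          (∑ j, p.1.1 j * fld E (fun e => k e s) (x s) j) s := by
        apply HasDerivAt.fun_sum
        intro j _
        exact (h2 j).const_mul _
      exact h3.sub_const _)
    (by
      intro p
      have := hstart (x 0) hx0 p.1 p.2
      linarith)
    (by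
      filter_upwards with s hs p hp h0 hcR
      apply hfld R hR0R (x s) (fun e => k e s) (fun e he => hk e he s) p.1 p.2 _ h0 hcR
      intro q hq
      exact hp ⟨q, hq⟩)
    t ⟨ht0, le_rfl⟩
  exact hbd R hR0R (x t) (fun p hp => (key ⟨p, hp⟩).trans (hc R).le) i

/-- gluing of solutions: the past of `x` and a forward solution -/
theorem sol_glue {n : ℕ} {E : Finset ((Fin n → ℝ) × (Fin n → ℝ))}
    {k : (Fin n → ℝ) × (Fin n → ℝ) → ℝ → ℝ} {J : Set ℝ} {x y : ℝ → Fin n → ℝ}
    (_hJ : J.OrdConnected) (h0 : (0 : ℝ) ∈ J) (hx : IsSol E k x J) (hy : IsSol E k y (Set.Ici 0))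
    (hxy : x 0 = y 0) :
    IsSol E k (fun t => if t < 0 then x t else y t) (J ∪ Set.Ici 0) := by
  have hmem : ∀ t ∈ J ∪ Set.Ici 0, t < 0 → t ∈ J := by
    intro t ht ht0
    rcases ht with ht | ht
    · exact ht
    · exact absurd ht (not_le.2 ht0)
  refine ⟨?_, ?_, ?_⟩
  · intro t ht i
    by_cases h : t < 0
    · simp only [h, if_true]
      exact hx.pos t (hmem t ht h) i
    · simp only [h, if_false]
      exact hy.pos t (not_lt.1 h) i
  · intro a ha b hb hab
    rcases lt_or_ge b 0 with hb0 | hb0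
    · have hac := hx.ac a (hmem a ha (lt_of_le_of_lt hab hb0)) b (hmem b hb hb0) hab
      refine ac_congr ?_ hac
      intro t ht
      rw [uIcc_of_le hab] at ht
      have : t < 0 := lt_of_le_of_lt ht.2 hb0
      simp [this]
    · rcases lt_or_ge a 0 with ha0 | ha0
      · exact ac_glue ha0.le hb0 hxy (hx.ac a (hmem a ha ha0) 0 h0 ha0.le)
          (hy.ac 0 (Set.mem_Ici.2 le_rfl) b hb0 hb0)
      · have hac := hy.ac a ha0 b hb0 hab
        refine ac_congr ?_ hac
        intro t ht
        rw [uIcc_of_le hab] at ht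
        have : ¬ t < 0 := not_lt.2 (le_trans ha0 ht.1)
        simp [this]
  · have hne : ∀ᵐ t : ℝ, t ≠ 0 := by
      have : MeasureTheory.volume ({0} : Set ℝ) = 0 := Real.volume_singleton
      exact MeasureTheory.compl_mem_ae_iff.2 this
    filter_upwards [hx.ode, hy.ode, hne] with t h1 h2 h3 ht
    rcases lt_or_gt_of_ne h3 with h | h
    · have h4 := h1 (hmem t ht h)
      have e : (fun t => if t < 0 then x t else y t) =ᶠ[nhds t] x := by
        filter_upwards [Iio_mem_nhds h] with s hs
        have hs' : s < 0 := hs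
        simp [hs']
      simp only [h, if_true]
      exact h4.congr_of_eventuallyEq e
    · have h4 := h2 h.le
      have hn : ¬ t < 0 := not_lt.2 h.le
      have e : (fun t => if t < 0 then x t else y t) =ᶠ[nhds t] y := by
        filter_upwards [Ioi_mem_nhds h] with s hs
        have hs' : ¬ s < 0 := not_lt.2 (le_of_lt hs)
        simp [hs']
      simp only [hn, if_false]
      exact h4.congr_of_eventuallyEq e

end W712.WR
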