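import Pool.Agent.W712.WR.Claim
import Pool.Agent.W712.WR.Extra
import Pool.Agent.W712.WR.Bdd
import Pool.Agent.W253.WR.Clos
import Pool.Agent.W991.WR.Chain
import Pool.Agent.W515.WR.Root
import Pool.Agent.W605.WR.Perm
import Pool.Agent.W368.WR.Field
import Pool.Agent.W578.WR.NoExit
import Pool.Agent.W363.WR.NoExitAC
import Pool.Agent.W85.WR.Cara
import Pool.Agent.W330.WR.Uniq
import Pool.Agent.W405.WR.S38
import Pool.Agent.W287.WR.Perman
import Pool.Agent.W580.WR.P210

/-!
Project WR: assembly.
-/

set_option autoImplicit false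

namespace W712.WR

theorem chain' : ChainStm := Pool.Agent.W991.WR.Chain.chain
theorem claim' : ClaimStm := claim_of_chain chain'
theorem root' : RootStm := Pool.Agent.W515.WR.root Pool.Agent.W253.WR.clos claim'
theorem main' : MainStm := Pool.Agent.W605.WR.main_of_root root'
theorem field' : FieldStm := Pool.Agent.W368.WR.field_of_main main'
theorem noExit' : NoExitStm := Pool.Agent.W578.WR.noexit
theorem noExitAC' : NoExitACStm := Pool.Agent.W363.WR.noExitAC
theorem cara' : CaraStm := Pool.Agent.W85.WR.cara
theorem uniq' : UniqStm := Pool.Agent.W330.WR.uniq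
theorem s03833' : S03833Stm := W405.WR.s03833 field' noExit'
theorem s03983' : S03983Stm := W405.WR.s03983 field' noExit'
theorem perm' : PermStm := Pool.Agent.W287.WR.Perman.perm field' noExitAC' cara' uniq'
theorem perm210' : Perm210Stm := W580.WR.perm210 perm'
theorem bdd' : BddStm := bdd field' noExit' perm210'

end W712.WR
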