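import Pool.Agent.W712.WR.Stm

set_option autoImplicit false

namespace W712.WR

open Finset

structure Chn (n : ℕ) (U : Finset (ℕ → ℝ)) (L : ℝ) (r : ℕ) (s a b : ℕ → ℝ) (q p σ : ℝ)
    (T : Finset ((ℕ → ℝ) × (ℝ → ℝ))) : Prop where
  qp : q ≤ p
  pre : ∀ t ∈ T, ∀ i ≤ r, t.1 i = s i
  le : ∀ t ∈ T, t.1 (r + 1) ≤ σ
  anti : ∀ t ∈ T, ∀ i j, r + 1 ≤ i → i ≤ j → j < n → t.1 j ≤ t.1 i
  nonneg : ∀ t ∈ T, ∀ R, 0 ≤ R → 0 ≤ t.2 R
  smooth : ∀ t ∈ T, ContDiff ℝ 1 t.2
  top : ∃ t ∈ T, (∀ i, r + 1 ≤ i → i < n → t.1 i = σ) ∧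
    ∃ C : ℝ, 0 ≤ C ∧ ∀ R, 0 ≤ R → t.2 R ≤ C * Real.exp (R * q)
  main : ∀ C δ : ℝ, 1 ≤ C → ∃ R0 : ℝ, ∀ R, R0 ≤ R → ∀ x : ℕ → ℝ, Srt n x →
    (∀ i ≤ r, Real.exp (R * a i) / C ≤ x i ∧ x i ≤ C * Real.exp (R * b i)) →
    Real.exp (R * L) / C ≤ x (n - 1) → x (r + 1) ≤ C * Real.exp (R * p) →
    ∀ t ∈ T, (∀ q ∈ T, pr n q.1 x - q.2 R ≤ pr n t.1 x - t.2 R) →
      ∀ u ∈ U, 0 < pr n t.1 u → δ < ∑ i ∈ range n, u i * Real.log (x i)

lemma bound_nonneg {h : ℝ → ℝ} {C q : ℝ} (h1 : ∀ R, 0 ≤ R → h R ≤ C * Real.exp (R * q)) :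
    ∀ R, 0 ≤ R → h R ≤ max C 0 * Real.exp (R * q) := fun R hR =>
  (h1 R hR).trans (mul_le_mul_of_nonneg_right (le_max_left _ _) (Real.exp_pos _).le)

lemma chn_start {n : ℕ} {U : Finset (ℕ → ℝ)} {L : ℝ} {r : ℕ} {s a b : ℕ → ℝ} {p σ : ℝ}
    {T : Finset ((ℕ → ℝ) × (ℝ → ℝ))} (hr : r + 1 < n) (hLp : L ≤ p)
    (h : Fam n U L (r + 1) (Function.update s (r + 1) σ) (Function.update a (r + 1) L)
      (Function.update b (r + 1) p) T) :
    ∃ q, q < L ∧ Chn n U L r s a b q p σ T := by
  obtain ⟨t, ht, ht1, C, η, hη, hC⟩ := h.top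
  refine ⟨L - η, by linarith, ?_⟩
  refine ⟨by linarith, ?_, ?_, ?_, h.nonneg, h.smooth, ?_, ?_⟩
  · intro t ht i hi
    rw [h.pre t ht i (by omega), Function.update_of_ne (by omega)]
  · intro t ht
    rw [h.pre t ht (r + 1) le_rfl, Function.update_self]
  · intro t ht i j hi hij hj
    exact h.anti t ht i j hi hij hj
  · refine ⟨t, ht, ?_, max C 0, le_max_right _ _, ?_⟩
    · intro i hi hin
      rw [ht1 i hi hin, Function.update_self]
    · apply bound_nonneg
      intro R hR
      have := hC R hR
      rwa [Function.update_self] at this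
  · intro C δ hC1
    obtain ⟨R0, hR0⟩ := h.main C δ hC1
    refine ⟨R0, fun R hR x hx hbox hL hp t ht hmax u hu hpos => ?_⟩
    refine hR0 R hR x hx ?_ hL t ht hmax u hu hpos
    intro i hi
    rcases Nat.lt_or_ge r i with hlt | hge
    · have : i = r + 1 := by omega
      subst this
      rw [Function.update_self, Function.update_self]
      exact ⟨hL.trans (hx.2 (r + 1) (n - 1) (by omega) (by omega)), hp⟩
    · rw [Function.update_of_ne (by omega), Function.update_of_ne (by omega)]
      exact hbox i hge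

lemma chn_fin {n : ℕ} {U : Finset (ℕ → ℝ)} {L : ℝ} {r : ℕ} {s a b : ℕ → ℝ} {q : ℝ}
    {T : Finset ((ℕ → ℝ) × (ℝ → ℝ))} (hr : r + 1 < n) (hq : q < a r)
    (h : Chn n U L r s a b q (b r) (s r) T) : Fam n U L r s a b T := by
  refine ⟨h.pre, ?_, h.nonneg, h.smooth, ?_, ?_⟩
  · intro t ht i j hi hij hj
    rcases Nat.lt_or_ge r i with hlt | hge
    · exact h.anti t ht i j hlt hij hj
    · have : i = r := by omega
      subst this
      rcases Nat.lt_or_ge i j with h1 | h1
      · rw [h.pre t ht i le_rfl]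
        exact (h.anti t ht (i + 1) j le_rfl h1 hj).trans (h.le t ht)
      · have : i = j := by omega
        rw [this]
  · obtain ⟨t, ht, ht1, C, hC0, hC⟩ := h.top
    refine ⟨t, ht, ?_, C, a r - q, by linarith, ?_⟩
    · intro i hi hin
      rcases Nat.lt_or_ge r i with hlt | hge
      · exact ht1 i hlt hin
      · have : i = r := by omega
        rw [this]; exact h.pre t ht r le_rfl
    · intro R hR
      have := hC R hR
      convert this using 3
      ring
  · intro C δ hC
    obtain ⟨R0, hR0⟩ := h.main C δ hC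
    refine ⟨R0, fun R hR x hx hbox hL t ht hmax u hu hpos => ?_⟩
    exact hR0 R hR x hx hbox hL ((hx.2 r (r + 1) (by omega) hr).trans (hbox r le_rfl).2)
      t ht hmax u hu hpos

/-- splitting the pairing -/
lemma pr_split {n r : ℕ} (_hr : r + 1 < n) (w w' x : ℕ → ℝ) (hpre : ∀ i ≤ r, w i = w' i) :
    pr n w x - pr n w' x = ∑ i ∈ (range n).filter (fun i => r + 1 ≤ i), (w i - w' i) * x i := by
  unfold pr
  rw [← sum_sub_distrib, sum_filter]
  refine sum_congr rfl fun i hi => ?_
  split_ifs with h
  · ring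
  · rw [hpre i (by omega)]; ring

lemma chn_ext {n : ℕ} {U : Finset (ℕ → ℝ)} {L : ℝ} {r : ℕ} {s a b : ℕ → ℝ} {q p σ p' σ' : ℝ}
    {T T' : Finset ((ℕ → ℝ) × (ℝ → ℝ))} (hr : r + 1 < n) (hσ : σ < σ') (hpp : p ≤ p')
    (hc : Chn n U L r s a b q p σ T)
    (h : Fam n U L (r + 1) (Function.update s (r + 1) σ') (Function.update a (r + 1) p)
      (Function.update b (r + 1) p') T') :
    ∃ T'', Chn n U L r s a b p p' σ' T'' := by
  classical
  obtain ⟨t0, ht0, ht01, C0, hC00, hC0⟩ := hc.top
  obtain ⟨t1, ht1, ht11, C1', η, hη, hC1'⟩ := h.top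
  -- constants
  set C1 := max C1' 0 with hC1def
  have hC10 : 0 ≤ C1 := le_max_right _ _
  have hC1 : ∀ R, 0 ≤ R → t1.2 R ≤ C1 * Real.exp (R * p) := by
    intro R hR
    have h1 := bound_nonneg hC1' R hR
    rw [Function.update_self] at h1
    refine h1.trans (mul_le_mul_of_nonneg_left ?_ hC10)
    apply Real.exp_le_exp.2
    nlinarith
  have hC0' : ∀ R, 0 ≤ R → t0.2 R ≤ C0 * Real.exp (R * p) := by
    intro R hR
    refine (hC0 R hR).trans (mul_le_mul_of_nonneg_left ?_ hC00)
    apply Real.exp_le_exp.2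
    exact mul_le_mul_of_nonneg_left hc.qp hR
  let lift : (ℕ → ℝ) × (ℝ → ℝ) → (ℕ → ℝ) × (ℝ → ℝ) :=
    fun t => (t.1, fun R => t0.2 R + (σ' - σ) * Real.exp (R * p) + t.2 R)
  have hσ0 : 0 < σ' - σ := by linarith
  refine ⟨T ∪ T'.image lift, hpp, ?_, ?_, ?_, ?_, ?_, ?_, ?_⟩
  · intro t ht i hi
    rcases mem_union.1 ht with ht | ht
    · exact hc.pre t ht i hi
    · obtain ⟨t', ht', rfl⟩ := mem_image.1 ht
      show t'.1 i = s i
      rw [h.pre t' ht' i (by omega), Function.update_of_ne (by omega)]
  · intro t ht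
    rcases mem_union.1 ht with ht | ht
    · exact (hc.le t ht).trans hσ.le
    · obtain ⟨t', ht', rfl⟩ := mem_image.1 ht
      show t'.1 (r + 1) ≤ σ'
      rw [h.pre t' ht' (r + 1) le_rfl, Function.update_self]
  · intro t ht i j hi hij hj
    rcases mem_union.1 ht with ht | ht
    · exact hc.anti t ht i j hi hij hj
    · obtain ⟨t', ht', rfl⟩ := mem_image.1 ht
      exact h.anti t' ht' i j hi hij hj
  · intro t ht R hR
    rcases mem_union.1 ht with ht | ht
    · exact hc.nonneg t ht R hR
    · obtain ⟨t', ht', rfl⟩ := mem_image.1 ht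
      show 0 ≤ t0.2 R + (σ' - σ) * Real.exp (R * p) + t'.2 R
      have h1 := hc.nonneg t0 ht0 R hR
      have h2 := h.nonneg t' ht' R hR
      have h3 := Real.exp_pos (R * p)
      positivity
  · intro t ht
    rcases mem_union.1 ht with ht | ht
    · exact hc.smooth t ht
    · obtain ⟨t', ht', rfl⟩ := mem_image.1 ht
      have h1 := hc.smooth t0 ht0
      have h2 := h.smooth t' ht'
      show ContDiff ℝ 1 (fun R => t0.2 R + (σ' - σ) * Real.exp (R * p) + t'.2 R)
      have h3 : ContDiff ℝ 1 (fun R : ℝ => Real.exp (R * p)) :=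
        Real.contDiff_exp.comp (contDiff_id.mul contDiff_const)
      exact (h1.add (contDiff_const.mul h3)).add h2
  · refine ⟨lift t1, mem_union_right _ (mem_image_of_mem _ ht1), ?_, C0 + (σ' - σ) + C1,
      by positivity, ?_⟩
    · intro i hi hin
      show t1.1 i = σ'
      rw [ht11 i hi hin, Function.update_self]
    · intro R hR
      show t0.2 R + (σ' - σ) * Real.exp (R * p) + t1.2 R ≤ _
      have h1 := hC0' R hR
      have h2 := hC1 R hR
      nlinarith
  · intro C δ hC
    have hn1 : (1 : ℝ) ≤ n := by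
      have : 1 ≤ n := by omega
      exact_mod_cast this
    obtain ⟨R1, hR1⟩ := h.main (max C n) δ (hC.trans (le_max_left _ _))
    obtain ⟨R2, hR2⟩ := hc.main (max C ((C0 + (σ' - σ) + C1) / (σ' - σ))) δ
      (hC.trans (le_max_left _ _))
    refine ⟨max (max R1 R2) 0, fun R hR x hx hbox hL hp t ht hmax u hu hpos => ?_⟩
    have hRR1 : R1 ≤ R := (le_max_left _ _).trans ((le_max_left _ _).trans hR)
    have hRR2 : R2 ≤ R := (le_max_right _ _).trans ((le_max_left _ _).trans hR)
    have hR0 : 0 ≤ R := (le_max_right _ _).trans hR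
    have hCpos : 0 < C := by linarith
    have weaken : ∀ C' : ℝ, C ≤ C' → ∀ y z : ℝ, Real.exp y / C ≤ z → Real.exp y / C' ≤ z := by
      intro C' hCC y z hz
      refine le_trans ?_ hz
      exact div_le_div_of_nonneg_left (Real.exp_pos _).le hCpos hCC
    have weaken2 : ∀ C' : ℝ, C ≤ C' → ∀ y z : ℝ, z ≤ C * Real.exp y → z ≤ C' * Real.exp y := by
      intro C' hCC y z hz
      exact hz.trans (mul_le_mul_of_nonneg_right hCC (Real.exp_pos _).le)
    have hxr : 0 < x (r + 1) := hx.1 _ hr
    rcases mem_union.1 ht with htT | htT'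
    · -- the maximiser is an old one
      have hmax' : ∀ q ∈ T, pr n q.1 x - q.2 R ≤ pr n t.1 x - t.2 R := fun q hq =>
        hmax q (mem_union_left _ hq)
      have hcomp := hmax (lift t1) (mem_union_right _ (mem_image_of_mem _ ht1))
      have hpre : ∀ i ≤ r, t.1 i = (lift t1).1 i := by
        intro i hi
        rw [hc.pre t htT i hi]
        show s i = t1.1 i
        rw [h.pre t1 ht1 i (by omega), Function.update_of_ne (by omega)]
      have hsplit := pr_split hr t.1 (lift t1).1 x hpre
      have hle : ∑ i ∈ (range n).filter (fun i => r + 1 ≤ i), (t.1 i - (lift t1).1 i) * x i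
          ≤ (σ - σ') * x (r + 1) := by
        have hmem : r + 1 ∈ (range n).filter (fun i => r + 1 ≤ i) := by
          simp [hr]
        rw [← add_sum_erase _ _ hmem]
        have h1 : (t.1 (r + 1) - (lift t1).1 (r + 1)) * x (r + 1) ≤ (σ - σ') * x (r + 1) := by
          apply mul_le_mul_of_nonneg_right _ hxr.le
          have e1 : (lift t1).1 (r + 1) = σ' := by
            show t1.1 (r + 1) = σ'
            rw [ht11 (r + 1) le_rfl hr, Function.update_self]
          rw [e1]
          have := hc.le t htT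
          linarith
        have h2 : ∑ i ∈ ((range n).filter (fun i => r + 1 ≤ i)).erase (r + 1),
            (t.1 i - (lift t1).1 i) * x i ≤ 0 := by
          apply sum_nonpos
          intro i hi
          have hi2 := mem_filter.1 (mem_of_mem_erase hi)
          have hin : i < n := mem_range.1 hi2.1
          have e1 : (lift t1).1 i = σ' := by
            show t1.1 i = σ'
            rw [ht11 i hi2.2 hin, Function.update_self]
          have e2 : t.1 i ≤ σ := (hc.anti t htT (r + 1) i le_rfl hi2.2 hin).trans (hc.le t htT)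
          rw [e1]
          exact mul_nonpos_of_nonpos_of_nonneg (by linarith) (hx.1 i hin).le
        linarith
      have hh : (lift t1).2 R ≤ (C0 + (σ' - σ) + C1) * Real.exp (R * p) := by
        show t0.2 R + (σ' - σ) * Real.exp (R * p) + t1.2 R ≤ _
        have h1 := hC0' R hR0
        have h2 := hC1 R hR0
        nlinarith
      have hnn := hc.nonneg t htT R hR0
      have hx1 : (σ' - σ) * x (r + 1) ≤ (C0 + (σ' - σ) + C1) * Real.exp (R * p) := by
        linarith
      have hx2 : x (r + 1) ≤ (C0 + (σ' - σ) + C1) / (σ' - σ) * Real.exp (R * p) := by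
        rw [div_mul_eq_mul_div, le_div_iff₀ hσ0]
        linarith
      refine hR2 R hRR2 x hx ?_ (weaken _ (le_max_left _ _) _ _ hL) ?_ t htT hmax' u hu hpos
      · intro i hi
        exact ⟨weaken _ (le_max_left _ _) _ _ (hbox i hi).1,
          weaken2 _ (le_max_left _ _) _ _ (hbox i hi).2⟩
      · exact hx2.trans (mul_le_mul_of_nonneg_right (le_max_right _ _) (Real.exp_pos _).le)
    · -- the maximiser is a new one
      obtain ⟨t', ht', rfl⟩ := mem_image.1 htT'
      have hmax' : ∀ q ∈ T', pr n q.1 x - q.2 R ≤ pr n t'.1 x - t'.2 R := by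
        intro q hq
        have := hmax (lift q) (mem_union_right _ (mem_image_of_mem _ hq))
        have e1 : pr n (lift q).1 x - (lift q).2 R
            = pr n q.1 x - (t0.2 R + (σ' - σ) * Real.exp (R * p) + q.2 R) := rfl
        have e2 : pr n (lift t').1 x - (lift t').2 R
            = pr n t'.1 x - (t0.2 R + (σ' - σ) * Real.exp (R * p) + t'.2 R) := rfl
        rw [e1, e2] at this
        linarith
      have hcomp := hmax t0 (mem_union_left _ ht0)
      have e2 : pr n (lift t').1 x - (lift t').2 R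
            = pr n t'.1 x - (t0.2 R + (σ' - σ) * Real.exp (R * p) + t'.2 R) := rfl
      rw [e2] at hcomp
      have hpre : ∀ i ≤ r, t'.1 i = t0.1 i := by
        intro i hi
        rw [hc.pre t0 ht0 i hi, h.pre t' ht' i (by omega), Function.update_of_ne (by omega)]
      have hsplit := pr_split hr t'.1 t0.1 x hpre
      have ht'r : t'.1 (r + 1) = σ' := by
        rw [h.pre t' ht' (r + 1) le_rfl, Function.update_self]
      have hle : ∑ i ∈ (range n).filter (fun i => r + 1 ≤ i), (t'.1 i - t0.1 i) * x i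
          ≤ (σ' - σ) * (n * x (r + 1)) := by
        have h1 : ∀ i ∈ (range n).filter (fun i => r + 1 ≤ i),
            (t'.1 i - t0.1 i) * x i ≤ (σ' - σ) * x (r + 1) := by
          intro i hi
          have hi2 := mem_filter.1 hi
          have hin : i < n := mem_range.1 hi2.1
          have e1 : t0.1 i = σ := ht01 i hi2.2 hin
          have e3 : t'.1 i ≤ σ' := by
            rw [← ht'r]
            exact h.anti t' ht' (r + 1) i le_rfl hi2.2 hin
          have hxi : 0 < x i := hx.1 i hin
          have hxir : x i ≤ x (r + 1) := hx.2 (r + 1) i hi2.2 hin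
          rw [e1]
          calc (t'.1 i - σ) * x i ≤ (σ' - σ) * x i :=
                mul_le_mul_of_nonneg_right (by linarith) hxi.le
            _ ≤ (σ' - σ) * x (r + 1) := mul_le_mul_of_nonneg_left hxir hσ0.le
        have h2 := sum_le_card_nsmul _ _ _ h1
        refine h2.trans ?_
        rw [nsmul_eq_mul]
        have h3 : (((range n).filter (fun i => r + 1 ≤ i)).card : ℝ) ≤ n := by
          have : ((range n).filter (fun i => r + 1 ≤ i)).card ≤ n := by
            calc _ ≤ (range n).card := card_filter_le _ _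
              _ = n := card_range n
          exact_mod_cast this
        calc _ ≤ (n : ℝ) * ((σ' - σ) * x (r + 1)) :=
              mul_le_mul_of_nonneg_right h3 (by positivity)
          _ = _ := by ring
      have hnn := h.nonneg t' ht' R hR0
      have hx1 : (σ' - σ) * Real.exp (R * p) ≤ (σ' - σ) * (n * x (r + 1)) := by
        linarith
      have hx2 : Real.exp (R * p) ≤ n * x (r + 1) := le_of_mul_le_mul_left hx1 hσ0
      have hx3 : Real.exp (R * p) / n ≤ x (r + 1) := by
        rw [div_le_iff₀ (by linarith)]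
        linarith
      refine hR1 R hRR1 x hx ?_ (weaken _ (le_max_left _ _) _ _ hL) t' ht' hmax' u hu hpos
      intro i hi
      rcases Nat.lt_or_ge r i with hlt | hge
      · have : i = r + 1 := by omega
        subst this
        rw [Function.update_self, Function.update_self]
        refine ⟨?_, weaken2 _ (le_max_left _ _) _ _ hp⟩
        refine le_trans ?_ hx3
        exact div_le_div_of_nonneg_left (Real.exp_pos _).le (by linarith) (le_max_right _ _)
      · rw [Function.update_of_ne (by omega), Function.update_of_ne (by omega)]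
        exact ⟨weaken _ (le_max_left _ _) _ _ (hbox i hge).1,
          weaken2 _ (le_max_left _ _) _ _ (hbox i hge).2⟩

lemma leaf {n : ℕ} {U D : Finset (ℕ → ℝ)} {C0 : ℝ} (hD : Good n D C0) (hUD : U ⊆ D)
    {r : ℕ} (hr : r + 1 = n) {L : ℝ} {s a b : ℕ → ℝ} {ρ : ℝ} (h : Inv D r 1 s a b ρ) :
    Fam n U L r s a b {(s, fun _ => 0)} := by
  refine ⟨?_, ?_, ?_, ?_, ?_, ?_⟩
  · intro p hp i _
    rw [mem_singleton.1 hp]
  · intro p _ i j hi hij hj
    have : i = j := by omega
    rw [this]
  · intro p hp R _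
    rw [mem_singleton.1 hp]
  · intro p hp
    rw [mem_singleton.1 hp]
    exact contDiff_const
  · refine ⟨_, mem_singleton_self _, ?_, 0, 1, one_pos, ?_⟩
    · intro i hi hin
      have : i = r := by omega
      rw [this]
    · intro R _
      simp
  · intro C δ hC
    have hC0 := hD.one_le
    have hlogC : 0 ≤ Real.log C := Real.log_nonneg hC
    refine ⟨max 1 ((δ + n * (C0 * Real.log C) + 1) / ρ), fun R hR x hx hbox _ p hp _ u hu hpos => ?_⟩
    rw [mem_singleton.1 hp] at hpos
    have hR1 : 1 ≤ R := (le_max_left _ _).trans hR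
    have hR0 : 0 < R := by linarith
    have hR2 : δ + n * (C0 * Real.log C) + 1 ≤ R * ρ := by
      have := (le_max_right _ _).trans hR
      rwa [div_le_iff₀ h.pos] at this
    have hCpos : 0 < C := by linarith
    -- positions
    let τ : ℕ → ℝ := fun i => max (a i) (min (b i) (Real.log (x i) / R))
    have hτ : ∀ i ≤ r, a i ≤ τ i ∧ τ i ≤ b i := by
      intro i hi
      exact ⟨le_max_left _ _, max_le (h.le i hi) (min_le_left _ _)⟩
    have hclose : ∀ i ≤ r, |Real.log (x i) - R * τ i| ≤ Real.log C := by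
      intro i hi
      have hxi : 0 < x i := hx.1 i (by omega)
      obtain ⟨h1, h2⟩ := hbox i hi
      have l1 : R * a i - Real.log C ≤ Real.log (x i) := by
        have := Real.log_le_log (by positivity) h1
        rwa [Real.log_div (Real.exp_pos _).ne' hCpos.ne', Real.log_exp] at this
      have l2 : Real.log (x i) ≤ R * b i + Real.log C := by
        have := Real.log_le_log hxi h2
        rw [Real.log_mul hCpos.ne' (Real.exp_pos _).ne', Real.log_exp] at this
        linarith
      have hle := h.le i hi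
      have hmul : R * (Real.log (x i) / R) = Real.log (x i) := by field_simp
      rw [abs_le]
      show -Real.log C ≤ Real.log (x i) - R * max (a i) (min (b i) (Real.log (x i) / R)) ∧
        Real.log (x i) - R * max (a i) (min (b i) (Real.log (x i) / R)) ≤ Real.log C
      rcases le_total (Real.log (x i) / R) (b i) with c1 | c1
      · rw [min_eq_right c1]
        rcases le_total (a i) (Real.log (x i) / R) with c2 | c2
        · rw [max_eq_right c2, hmul]
          constructor <;> linarith
        · rw [max_eq_left c2]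
          have : Real.log (x i) ≤ R * a i := by
            rw [← hmul]; exact mul_le_mul_of_nonneg_left c2 hR0.le
          constructor <;> linarith
      · rw [min_eq_left c1, max_eq_right hle]
        have : R * b i ≤ Real.log (x i) := by
          rw [← hmul]; exact mul_le_mul_of_nonneg_left c1 hR0.le
        constructor <;> linarith
    have hsu : 0 < pr (r + 1) u s := by
      have : pr (r + 1) u s = pr n s u := by
        rw [hr]; unfold pr; exact sum_congr rfl fun i _ => mul_comm _ _
      rw [this]; exact hpos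
    have huD := hUD hu
    have hmain := h.one u huD (by rw [hr]; exact hD.supp u huD) hsu τ hτ
    rw [hr] at hmain
    have hdiff : ∑ i ∈ range n, u i * Real.log (x i)
        = R * pr n u τ + ∑ i ∈ range n, u i * (Real.log (x i) - R * τ i) := by
      unfold pr
      rw [mul_sum, ← sum_add_distrib]
      exact sum_congr rfl fun i _ => by ring
    have herr : -(n * (C0 * Real.log C)) ≤ ∑ i ∈ range n, u i * (Real.log (x i) - R * τ i) := by
      have h1 : ∀ i ∈ range n, -(C0 * Real.log C) ≤ u i * (Real.log (x i) - R * τ i) := by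
        intro i hi
        have hi' := mem_range.1 hi
        have h2 : |u i * (Real.log (x i) - R * τ i)| ≤ C0 * Real.log C := by
          rw [abs_mul]
          exact mul_le_mul (hD.bd u huD i) (hclose i (by omega)) (abs_nonneg _) (by linarith)
        exact (abs_le.1 h2).1
      have h2 := card_nsmul_le_sum (range n) _ _ h1
      rw [card_range, nsmul_eq_mul] at h2
      linarith
    rw [hdiff]
    have : R * (1 * ρ) ≤ R * pr n u τ := mul_le_mul_of_nonneg_left hmain hR0.le
    linarith

theorem claim_of_chain (hch : ChainStm) : ClaimStm := by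
  intro n U D C hD hUD
  -- downward induction
  have key : ∀ j r : ℕ, r + 1 + j = n → ∃ A : ℝ, 0 < A ∧
      ∀ (L : ℝ) (s a b : ℕ → ℝ) (ρ : ℝ), Inv D r A s a b ρ →
        (∀ i ≤ r, L ≤ a i) → ∃ T, Fam n U L r s a b T := by
    intro j
    induction j with
    | zero =>
      intro r hr
      exact ⟨1, one_pos, fun L s a b ρ h _ => ⟨_, leaf hD hUD (by omega) h⟩⟩
    | succ j ih =>
      intro r hr
      have hrn : r + 1 < n := by omega
      obtain ⟨A', hA', hclaim⟩ := ih (r + 1) (by omega)
      obtain ⟨A, hA, hchain⟩ := hch n D C hD r hrn A' hA'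
      refine ⟨A, hA, fun L s a b ρ h hL => ?_⟩
      have hLu : ∀ p, L ≤ p → ∀ i ≤ r + 1, L ≤ Function.update a (r + 1) p i := by
        intro p hp i hi
        rcases Nat.lt_or_ge r i with hlt | hge
        · have : i = r + 1 := by omega
          subst this
          rwa [Function.update_self]
        · rw [Function.update_of_ne (by omega)]
          exact hL i hge
      obtain ⟨q, hq, T, hT⟩ := hchain L s a b ρ h hL
        (fun q p σ => ∃ T, Chn n U L r s a b q p σ T)
        (fun σ p hLp _ hcell => by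
          obtain ⟨ρ', hI⟩ := hcell
          obtain ⟨T, hT⟩ := hclaim L _ _ _ ρ' hI (hLu L le_rfl)
          obtain ⟨q, hq, hc⟩ := chn_start hrn hLp hT
          exact ⟨q, hq, T, hc⟩)
        (fun q p σ p' σ' hP hσ _ hLp hpp hcell => by
          obtain ⟨T0, hT0⟩ := hP
          obtain ⟨ρ', hI⟩ := hcell
          obtain ⟨T, hT⟩ := hclaim L _ _ _ ρ' hI (hLu p hLp)
          exact chn_ext hrn hσ hpp hT0 hT)
      exact ⟨T, chn_fin hrn hq hT⟩
  intro r hr
  exact key (n - (r + 1)) r (by omega)

end W712.WR
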